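import Pool.Agent.Helper386.D5V.Helper386_FF_Div

/-!
# A curve through a point of an affine variety (job 4881, for helper152)
-/

set_option autoImplicit false

open FF IntermediateField

namespace Pool.Agent.TH365.J4881

/-- the line through two points, on functions -/
noncomputable def ln {s : ℕ} (μ ν : Fin s → ℂ) : MvPolynomial (Fin s) ℂ →ₐ[ℂ] Polynomial ℂ :=
  MvPolynomial.aeval fun j => Polynomial.C (μ j) + Polynomial.C (ν j - μ j) * Polynomial.X

lemma ln_X {s : ℕ} (μ ν : Fin s → ℂ) (j : Fin s) :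
    ln μ ν (MvPolynomial.X j) = Polynomial.C (μ j) + Polynomial.C (ν j - μ j) * Polynomial.X := by
  rw [ln, MvPolynomial.aeval_X]

lemma ln_eval {s : ℕ} (μ ν : Fin s → ℂ) (z : ℂ) (b : MvPolynomial (Fin s) ℂ) :
    (ln μ ν b).eval z = MvPolynomial.eval (fun j => μ j + (ν j - μ j) * z) b := by
  induction b using MvPolynomial.induction_on with
  | C c => simp [ln]
  | add p q hp hq => rw [map_add, Polynomial.eval_add, hp, hq, map_add]
  | mul_X p i hp =>
    rw [map_mul, Polynomial.eval_mul, hp, map_mul, ln_X]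
    simp

theorem integral_of {s : ℕ} {A L K : Type} [CommRing A] [Field L] [CommRing K]
    [Algebra ℂ A] [Algebra ℂ L] [Algebra K L]
    (g : MvPolynomial (Fin s) ℂ →ₐ[ℂ] A) (ρ : A →ₐ[ℂ] L) (φ : MvPolynomial (Fin s) ℂ →+* K)
    (hφ : ∀ b, algebraMap K L (φ b) = ρ (g b)) (x : A) (hx : g.toRingHom.IsIntegralElem x) :
    IsIntegral K (ρ x) := by
  obtain ⟨p, hpm, hp0⟩ := hx
  refine ⟨p.map φ, hpm.map φ, ?_⟩
  rw [Polynomial.eval₂_map]
  have h1 : (algebraMap K L).comp φ = (ρ : A →+* L).comp g.toRingHom := by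
    ext b
    · exact hφ _
    · exact hφ _
  rw [h1]
  have h2 := Polynomial.hom_eval₂ p g.toRingHom (ρ : A →+* L) x
  rw [hp0, map_zero] at h2
  exact h2.symm

theorem core (hAVO : ∀ (s : ℕ) (b : ℕ → MvPolynomial (Fin s) ℂ), (∀ i, b i ≠ 0) →
      ∃ ν : Fin s → ℂ, ∀ i, MvPolynomial.eval ν (b i) ≠ 0)
    (A : Type) [CommRing A] [IsDomain A] [Algebra ℂ A] [Algebra.FiniteType ℂ A]
    (η : A →ₐ[ℂ] ℂ) (a : ℕ → A) (ha : ∀ i, a i ≠ 0)
    (hx : ∃ x : A, ∀ z : ℂ, x ≠ algebraMap ℂ A z) :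
    ∃ (L : Type) (_ : Field L) (_ : Algebra ℂ L) (_ : IsFF ℂ L) (ρ : A →ₐ[ℂ] L) (t : A),
      Transcendental ℂ (ρ t) ∧ (∀ x, IsIntegral (Algebra.adjoin ℂ {ρ t}) (ρ x)) ∧
      (∀ i, ρ (a i) ≠ 0) ∧ ∀ x, ρ x = 0 → η x = 0 := by
  obtain ⟨s, g, hginj, hgfin⟩ := exists_finite_inj_algHom_of_fg ℂ A
  let : Algebra (MvPolynomial (Fin s) ℂ) A := g.toRingHom.toAlgebra
  have hg : ∀ p, algebraMap (MvPolynomial (Fin s) ℂ) A p = g p := fun _ => rfl
  have : IsScalarTower ℂ (MvPolynomial (Fin s) ℂ) A :=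
    IsScalarTower.of_algebraMap_eq fun c => by rw [hg, AlgHom.commutes]
  have : Module.Finite (MvPolynomial (Fin s) ℂ) A := hgfin
  have hBint : Algebra.IsIntegral (MvPolynomial (Fin s) ℂ) A := inferInstance
  have : FaithfulSMul (MvPolynomial (Fin s) ℂ) A :=
    (faithfulSMul_iff_algebraMap_injective _ _).2 hginj
  have : IsIntegrallyClosed (MvPolynomial (Fin s) ℂ) :=
    UniqueFactorizationMonoid.instIsIntegrallyClosed
  -- the dimension is positive
  have hs : Nonempty (Fin s) := by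
    by_contra hs
    rw [not_nonempty_iff] at hs
    obtain ⟨x, hx⟩ := hx
    have h1 : Algebra.IsIntegral ℂ A := by
      refine ⟨fun y => ?_⟩
      have h2 : Algebra.IsIntegral ℂ (MvPolynomial (Fin s) ℂ) := by
        refine ⟨fun p => ?_⟩
        rw [MvPolynomial.eq_C_of_isEmpty p]
        exact isIntegral_algebraMap
      exact isIntegral_trans y (hBint.isIntegral y)
    obtain ⟨z, hz⟩ := (IsAlgClosed.algebraMap_bijective_of_isIntegral (k := ℂ) (K := A)).2 x
    exact hx z hz.symm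
  obtain ⟨j0⟩ := hs
  -- norms of the elements `a i`
  have hb : ∀ i, ∃ b : MvPolynomial (Fin s) ℂ, b ≠ 0 ∧ a i ∣ g b := by
    intro i
    have h1 : Ideal.comap (algebraMap (MvPolynomial (Fin s) ℂ) A) (Ideal.span {a i}) ≠ ⊥ :=
      Ideal.comap_ne_bot_of_integral_mem (ha i) (Ideal.mem_span_singleton_self _)
        (hBint.isIntegral _)
    obtain ⟨b, hb1, hb2⟩ := Submodule.exists_mem_ne_zero_of_ne_bot h1
    exact ⟨b, hb2, Ideal.mem_span_singleton.1 (Ideal.mem_comap.1 hb1)⟩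
  choose b hb0 hbd using hb
  let μ : Fin s → ℂ := fun j => η (g (MvPolynomial.X j))
  have hμ : ∀ p : MvPolynomial (Fin s) ℂ, MvPolynomial.eval μ p = η (g p) := by
    intro p
    have h1 : (MvPolynomial.aeval μ : MvPolynomial (Fin s) ℂ →ₐ[ℂ] ℂ) = η.comp g := by
      refine MvPolynomial.algHom_ext fun j => ?_
      rw [MvPolynomial.aeval_X]
      rfl
    have h2 := DFunLike.congr_fun h1 p
    rw [MvPolynomial.aeval_eq_eval] at h2
    exact h2
  have hne : (MvPolynomial.X j0 - MvPolynomial.C (μ j0) : MvPolynomial (Fin s) ℂ) ≠ 0 := by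
    intro h
    have h1 := congrArg (MvPolynomial.eval fun _ => μ j0 + 1) h
    simp at h1
  obtain ⟨ν, hν⟩ := hAVO s (fun n => Nat.casesOn n
    (MvPolynomial.X j0 - MvPolynomial.C (μ j0)) b) (by
      intro n
      cases n with
      | zero => exact hne
      | succ n => exact hb0 n)
  have hν0 : ν j0 - μ j0 ≠ 0 := by
    have h1 := hν 0
    simpa using h1
  have hνb : ∀ i, MvPolynomial.eval ν (b i) ≠ 0 := fun i => hν (i + 1)
  let q : Ideal (MvPolynomial (Fin s) ℂ) := RingHom.ker (ln μ ν)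
  have hqp : q.IsPrime := RingHom.ker_isPrime _
  let Q : Ideal A := RingHom.ker η
  have hQp : Q.IsPrime := RingHom.ker_isPrime _
  have hle : q ≤ Q.under (MvPolynomial (Fin s) ℂ) := by
    intro p hp
    have h1 : ln μ ν p = 0 := hp
    have h2 := ln_eval μ ν 0 p
    rw [h1] at h2
    simp only [mul_zero, add_zero, Polynomial.eval_zero] at h2
    show η (g p) = 0
    rw [← hμ, ← h2]
  obtain ⟨P, hPQ, hPp, hPo⟩ := Ideal.exists_ideal_le_liesOver_of_le (p := q)
    (q := Q.under (MvPolynomial (Fin s) ℂ)) Q hle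
  have hqP : ∀ p, p ∈ q ↔ g p ∈ P := by
    intro p
    rw [hPo.over]
    rfl
  have hdom : IsDomain (A ⧸ P) := Ideal.Quotient.isDomain P
  let L : Type := FractionRing (A ⧸ P)
  let ρ : A →ₐ[ℂ] L := (IsScalarTower.toAlgHom ℂ (A ⧸ P) L).comp (Ideal.Quotient.mkₐ ℂ P)
  have hρ : ∀ x, ρ x = algebraMap (A ⧸ P) L (Ideal.Quotient.mk P x) := fun _ => rfl
  have hρ0 : ∀ x, ρ x = 0 ↔ x ∈ P := by
    intro x
    rw [hρ, ← Ideal.Quotient.eq_zero_iff_mem]
    exact map_eq_zero_iff _ (IsFractionRing.injective (A ⧸ P) L)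
  obtain ⟨t, ht⟩ : ∃ t : A, t = g (MvPolynomial.X j0) := ⟨_, rfl⟩
  have htr : Transcendental ℂ (ρ t) := by
    rintro ⟨F, hF, hF0⟩
    apply hF
    rw [ht, Polynomial.aeval_algHom_apply, Polynomial.aeval_algHom_apply, hρ0, ← hqP] at hF0
    have h1 : ln μ ν (Polynomial.aeval (MvPolynomial.X j0) F) = 0 := hF0
    rw [← Polynomial.aeval_algHom_apply, ln_X] at h1
    refine Polynomial.funext fun w => ?_
    have h2 := congrArg (Polynomial.aeval ((w - μ j0) / (ν j0 - μ j0))) h1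
    rw [← Polynomial.aeval_algHom_apply] at h2
    have h3 : Polynomial.aeval ((w - μ j0) / (ν j0 - μ j0)) (Polynomial.C (μ j0) +
        Polynomial.C (ν j0 - μ j0) * Polynomial.X) = w := by
      simp only [map_add, map_mul, Polynomial.aeval_C, Polynomial.aeval_X, Algebra.algebraMap_self,
        RingHom.id_apply]
      field_simp
      ring
    rw [h3, map_zero] at h2
    rw [Polynomial.eval_zero, ← Polynomial.coe_aeval_eq_eval]
    exact h2
  -- the image of the polynomial ring is in the algebra of `ρ t`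
  have hmem : ∀ p, ρ (g p) ∈ Algebra.adjoin ℂ {ρ t} := by
    intro p
    induction p using MvPolynomial.induction_on with
    | C c =>
      have h1 : (MvPolynomial.C c : MvPolynomial (Fin s) ℂ) = algebraMap ℂ _ c := rfl
      rw [h1, AlgHom.commutes, AlgHom.commutes]
      exact Subalgebra.algebraMap_mem _ _
    | add p q hp hq => rw [map_add, map_add]; exact add_mem hp hq
    | mul_X p l hp =>
      rw [map_mul, map_mul]
      refine mul_mem hp ?_
      have h1 : (MvPolynomial.X l - MvPolynomial.C (μ l) -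
          MvPolynomial.C ((ν l - μ l) / (ν j0 - μ j0)) * (MvPolynomial.X j0 -
            MvPolynomial.C (μ j0)) : MvPolynomial (Fin s) ℂ) ∈ q := by
        show ln μ ν _ = 0
        have hC : ∀ c : ℂ, ln μ ν (MvPolynomial.C c) = Polynomial.C c := by
          intro c
          rw [ln, MvPolynomial.aeval_C]
          rfl
        rw [map_sub, map_sub, map_mul, map_sub, ln_X, ln_X, hC, hC, hC]
        have h2 : (Polynomial.C (ν l - μ l) : Polynomial ℂ) =
            Polynomial.C ((ν l - μ l) / (ν j0 - μ j0)) * Polynomial.C (ν j0 - μ j0) := by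
          rw [← Polynomial.C_mul, div_mul_cancel₀ _ hν0]
        rw [h2]
        ring
      have h2 := (hρ0 _).2 ((hqP _).1 h1)
      have hC : ∀ c : ℂ, ρ (g (MvPolynomial.C c)) = algebraMap ℂ L c := by
        intro c
        have h1 : (MvPolynomial.C c : MvPolynomial (Fin s) ℂ) = algebraMap ℂ _ c := rfl
        rw [h1, AlgHom.commutes, AlgHom.commutes]
      rw [map_sub, map_sub, map_sub, map_sub, map_mul, map_mul, map_sub, map_sub, hC, hC, hC,
        ← ht, sub_sub, sub_eq_zero] at h2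
      rw [h2]
      refine add_mem (Subalgebra.algebraMap_mem _ _) (mul_mem (Subalgebra.algebraMap_mem _ _)
        (sub_mem (Algebra.subset_adjoin rfl) (Subalgebra.algebraMap_mem _ _)))
  have hint : ∀ x : A, g.toRingHom.IsIntegralElem x := fun x => hBint.isIntegral x
  have hL1 : Algebra.IsAlgebraic ℂ⟮ρ t⟯ L := by
    refine ⟨fun y => ?_⟩
    have hmem' : ∀ p, ρ (g p) ∈ ℂ⟮ρ t⟯ := fun p =>
      IntermediateField.algebra_adjoin_le_adjoin ℂ {ρ t} (hmem p)
    let φ : MvPolynomial (Fin s) ℂ →+* ℂ⟮ρ t⟯ :=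
      ((ρ.comp g : MvPolynomial (Fin s) ℂ →ₐ[ℂ] L) : MvPolynomial (Fin s) ℂ →+* L).codRestrict
        ℂ⟮ρ t⟯ hmem'
    have hφ : ∀ x : A, IsIntegral ℂ⟮ρ t⟯ (ρ x) := fun x =>
      integral_of g ρ φ (fun _ => rfl) x (hint x)
    obtain ⟨u, v, -, rfl⟩ := IsFractionRing.div_surjective (A := A ⧸ P) y
    obtain ⟨u, rfl⟩ := Ideal.Quotient.mk_surjective u
    obtain ⟨v, rfl⟩ := Ideal.Quotient.mk_surjective v
    rw [← hρ, ← hρ, div_eq_mul_inv]
    exact ((hφ u).mul (hφ v).inv).isAlgebraic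
  have hess : Algebra.EssFiniteType ℂ L := by
    have h1 : Algebra.EssFiniteType ℂ (A ⧸ P) := by
      have : Algebra.FiniteType ℂ (A ⧸ P) := inferInstance
      infer_instance
    have h2 : Algebra.EssFiniteType (A ⧸ P) L :=
      Algebra.EssFiniteType.of_isLocalization L (nonZeroDivisors (A ⧸ P))
    exact Algebra.EssFiniteType.comp ℂ (A ⧸ P) L
  have hfin : FiniteDimensional ℂ⟮ρ t⟯ L := by
    have h3 : Algebra.EssFiniteType ℂ⟮ρ t⟯ L := Algebra.EssFiniteType.of_comp ℂ ℂ⟮ρ t⟯ L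
    have h4 := IntermediateField.fg_top ℂ⟮ρ t⟯ L
    obtain ⟨s', hs'⟩ := h4
    have h5 : FiniteDimensional ℂ⟮ρ t⟯ (IntermediateField.adjoin ℂ⟮ρ t⟯ (s' : Set L)) :=
      IntermediateField.finiteDimensional_adjoin (fun x _ => (hL1.isAlgebraic x).isIntegral)
    rw [hs'] at h5
    exact IntermediateField.topEquiv.toLinearEquiv.finiteDimensional
  refine ⟨L, inferInstance, inferInstance, IsFF.of_finite htr hfin, ρ, t, htr, ?_, ?_, ?_⟩
  · intro x
    let φ : MvPolynomial (Fin s) ℂ →+* Algebra.adjoin ℂ {ρ t} :=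
      ((ρ.comp g : MvPolynomial (Fin s) ℂ →ₐ[ℂ] L) : MvPolynomial (Fin s) ℂ →+* L).codRestrict
        (Algebra.adjoin ℂ {ρ t}) hmem
    exact integral_of g ρ φ (fun _ => rfl) x (hint x)
  · intro i h
    rw [hρ0] at h
    have h1 : g (b i) ∈ P := P.mem_of_dvd (hbd i) h
    rw [← hqP] at h1
    have h2 : ln μ ν (b i) = 0 := h1
    have h3 := ln_eval μ ν 1 (b i)
    rw [h2, Polynomial.eval_zero] at h3
    apply hνb i
    rw [h3]
    congr 2
    funext j
    ring
  · intro x h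
    rw [hρ0] at h
    exact hPQ h

end Pool.Agent.TH365.J4881
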