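import Pool.Agent.TH152.BB.CutStm
import Pool.Agent.TH365.J4881.Core

/-!
# BB-CUT (job 4881, for helper152)
-/

set_option autoImplicit false

namespace Pool.Agent.TH152.BB

theorem cut_all (hAVO : S_AVO) : S_CUT := by
  intro A _ _ _ _ η a ha hx
  exact Pool.Agent.TH365.J4881.core hAVO A η a ha hx

end Pool.Agent.TH152.BB
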